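import Mathlib
set_option autoImplicit false

namespace Pool.Agent.Helper25.Old.LocalCells

open Module Pointwise

/-- the span of products of `k` functions from a family indexed by `ι` has small dimension. -/
theorem finrank_pow_le {α : Type*} [Fintype α] (ι : Type*) [Fintype ι] (ψ : ι → (α → ℝ)) (k : ℕ) :
    finrank ℝ ((Submodule.span ℝ (Set.range ψ) : Submodule ℝ (α → ℝ)) ^ k : Submodule ℝ (α → ℝ)) ≤
      Nat.multichoose (Fintype.card ι) k := by
  classical
  rw [Submodule.span_pow]
  have hsub : (Set.range ψ) ^ k ⊆ Set.range (fun s : Sym ι k => ((s : Multiset ι).map ψ).prod) := by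
    induction k with
    | zero =>
      intro g hg
      rw [pow_zero, Set.mem_one] at hg
      exact ⟨Sym.nil, by rw [hg]; simp only [Sym.coe_nil, Multiset.map_zero, Multiset.prod_zero]⟩
    | succ k ih =>
      intro g hg
      rw [pow_succ', Set.mem_mul] at hg
      obtain ⟨_, ⟨i, rfl⟩, b, hb, rfl⟩ := hg
      obtain ⟨s, rfl⟩ := ih hb
      exact ⟨i ::ₛ s, by simp only [Sym.coe_cons, Multiset.map_cons, Multiset.prod_cons]⟩
  calc finrank ℝ (Submodule.span ℝ ((Set.range ψ) ^ k) : Submodule ℝ (α → ℝ))
      ≤ finrank ℝ (Submodule.span ℝ (Set.range (fun s : Sym ι k => ((s : Multiset ι).map ψ).prod)) :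
          Submodule ℝ (α → ℝ)) := Submodule.finrank_mono (Submodule.span_mono hsub)
    _ ≤ Fintype.card (Sym ι k) := finrank_range_le_card _
    _ = Nat.multichoose (Fintype.card ι) k := Sym.card_sym_eq_multichoose ι k

theorem finrank_pow_le' {α : Type*} [Fintype α] (W : Submodule ℝ (α → ℝ)) (r k : ℕ)
    (hW : finrank ℝ W ≤ r + 1) : finrank ℝ (W ^ k : Submodule ℝ (α → ℝ)) ≤ (r + k).choose k := by
  have h1 := finrank_pow_le (Fin (finrank ℝ W)) (fun i => ((finBasis ℝ W i : W) : α → ℝ)) k
  have h2 : Submodule.span ℝ (Set.range (fun i => ((finBasis ℝ W i : W) : α → ℝ))) = W := by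
    have h3 := (finBasis ℝ W).span_eq
    have h4 : Set.range (fun i => ((finBasis ℝ W i : W) : α → ℝ)) =
        W.subtype '' Set.range (finBasis ℝ W) := by
      rw [← Set.range_comp]; rfl
    rw [h4, Submodule.span_image, h3, Submodule.map_top, Submodule.range_subtype]
  rw [h2, Fintype.card_fin, Nat.multichoose_eq] at h1
  refine h1.trans (Nat.choose_le_choose _ ?_)
  omega

theorem pow_le_pow {α : Type*} (W : Submodule ℝ (α → ℝ)) (h1 : (1 : α → ℝ) ∈ W) {j k : ℕ}
    (h : j ≤ k) : W ^ j ≤ W ^ k := by
  obtain ⟨i, rfl⟩ := Nat.exists_eq_add_of_le h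
  clear h
  induction i with
  | zero => exact le_refl _
  | succ i ih =>
    refine ih.trans ?_
    rw [← add_assoc, pow_succ]
    intro x hx
    have := Submodule.mul_mem_mul hx h1
    rwa [mul_one] at this

theorem prod_mem_pow {α β : Type*} (W : Submodule ℝ (α → ℝ)) (S : Finset β) (b : β → (α → ℝ))
    (hb : ∀ u ∈ S, b u ∈ W) : ∏ u ∈ S, b u ∈ W ^ S.card := by
  classical
  induction S using Finset.induction_on with
  | empty =>
    rw [Finset.prod_empty, Finset.card_empty, pow_zero]
    exact Submodule.mem_one.2 ⟨1, map_one _⟩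
  | insert u S hu ih =>
    rw [Finset.prod_insert hu, Finset.card_insert_of_notMem hu, pow_succ']
    exact Submodule.mul_mem_mul (hb u (Finset.mem_insert_self _ _))
      (ih fun v hv => hb v (Finset.mem_insert_of_mem hv))

/-- Colourability of a vertex set, with colours `< m`. -/
def Col {V : Type*} (G : SimpleGraph V) (U : Set V) (m : ℕ) : Prop :=
  ∃ c : V → ℕ, (∀ y ∈ U, c y < m) ∧ ∀ y ∈ U, ∀ z ∈ U, G.Adj y z → c y ≠ c z

theorem col_of_colorable {V : Type*} (G : SimpleGraph V) (U : Set V) (m : ℕ)
    (h : (G.induce U).Colorable m) : Col G U m := by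
  classical
  obtain ⟨C⟩ := h
  refine ⟨fun y => if hy : y ∈ U then (C ⟨y, hy⟩ : ℕ) else 0, ?_, ?_⟩
  · intro y hy
    simp only [hy, dite_true]
    exact (C ⟨y, hy⟩).2
  · intro y hy z hz hyz
    simp only [hy, hz, dite_true]
    intro heq
    have : C ⟨y, hy⟩ = C ⟨z, hz⟩ := Fin.ext heq
    exact C.valid (show (G.induce U).Adj ⟨y, hy⟩ ⟨z, hz⟩ from hyz) this

theorem colorable_of_col {V : Type*} (G : SimpleGraph V) (m : ℕ) (h : Col G Set.univ m) :
    G.Colorable m := by
  obtain ⟨c, hc1, hc2⟩ := h
  exact ⟨SimpleGraph.Coloring.mk (fun y => (⟨c y, hc1 y trivial⟩ : Fin m))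
    (fun {y z} hyz heq => hc2 y trivial z trivial hyz (by simpa using congrArg Fin.val heq))⟩

theorem col_union {V : Type*} (G : SimpleGraph V) (U Z : Set V) (m M : ℕ) (hU : Col G U m)
    (hZ : Col G Z M) : Col G (U ∪ Z) (m + M) := by
  classical
  obtain ⟨c, hc1, hc2⟩ := hU
  obtain ⟨d, hd1, hd2⟩ := hZ
  refine ⟨fun y => if y ∈ U then c y else m + d y, ?_, ?_⟩
  · intro y hy
    by_cases h : y ∈ U
    · simp only [h, if_true]; have := hc1 y h; omega
    · simp only [h, if_false]
      have := hd1 y (hy.resolve_left h); omega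
  · intro y hy z hz hyz
    by_cases h : y ∈ U <;> by_cases h' : z ∈ U
    · simp only [h, h', if_true]; exact hc2 y h z h' hyz
    · simp only [h, h', if_true, if_false]; have := hc1 y h; omega
    · simp only [h, h', if_true, if_false]; have := hc1 z h'; omega
    · simp only [h, h', if_false]
      have := hd2 y (hy.resolve_left h) z (hz.resolve_left h') hyz
      omega

/-- multiplication by the indicator of `U` -/
noncomputable def cut {V : Type*} (U : Set V) : (V → ℝ) →ₗ[ℝ] (V → ℝ) :=
  LinearMap.mulLeft ℝ (Set.indicator U 1)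

theorem cut_apply_mem {V : Type*} (U : Set V) (g : V → ℝ) (y : V) (hy : y ∈ U) :
    cut U g y = g y := by
  simp [cut, hy]

theorem cut_apply_notMem {V : Type*} (U : Set V) (g : V → ℝ) (y : V) (hy : y ∉ U) :
    cut U g y = 0 := by
  simp [cut, hy]

theorem finrank_map_lt {V : Type*} [Fintype V] (L : (V → ℝ) →ₗ[ℝ] (V → ℝ)) (P : Submodule ℝ (V → ℝ))
    (b : V → ℝ) (hb : b ∈ P) (hb0 : b ≠ 0) (hL : L b = 0) :
    finrank ℝ (P.map L) + 1 ≤ finrank ℝ P := by
  have h := LinearMap.finrank_range_add_finrank_ker (L.domRestrict P)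
  have h1 : LinearMap.range (L.domRestrict P) = P.map L := by
    rw [LinearMap.domRestrict, LinearMap.range_comp, Submodule.range_subtype]
  rw [h1] at h
  have h2 : 0 < finrank ℝ (LinearMap.ker (L.domRestrict P)) := by
    have hne : LinearMap.ker (L.domRestrict P) ≠ ⊥ := by
      intro hbot
      have hmem : (⟨b, hb⟩ : P) ∈ LinearMap.ker (L.domRestrict P) := by
        rw [LinearMap.mem_ker]; exact hL
      rw [hbot, Submodule.mem_bot] at hmem
      exact hb0 (congrArg Subtype.val hmem)
    have := Submodule.one_le_finrank_iff.2 hne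
    omega
  omega

theorem main {V : Type*} [Fintype V] [DecidableEq V] (G : SimpleGraph V) [DecidableRel G.Adj]
    (k M : ℕ)
    (h : ∀ U : Set V, U.Nonempty → ∃ x ∈ U, ∃ S : Finset V, S.card ≤ k ∧
      (G.induce {y | y ∈ U ∧ ∀ u ∈ S, (G.Adj u y ↔ G.Adj u x)}).Colorable M) :
    G.Colorable (((G.adjMatrix ℝ).rank + k).choose k * M) := by
  classical
  set r := (G.adjMatrix ℝ).rank with hr
  set W : Submodule ℝ (V → ℝ) := Submodule.span ℝ (Set.range (G.adjMatrix ℝ).row) ⊔
    Submodule.span ℝ {1} with hW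
  have h1W : (1 : V → ℝ) ∈ W :=
    Submodule.mem_sup_right (Submodule.subset_span rfl)
  have hrowW : ∀ u, (G.adjMatrix ℝ).row u ∈ W := fun u =>
    Submodule.mem_sup_left (Submodule.subset_span ⟨u, rfl⟩)
  have hWr : finrank ℝ W ≤ r + 1 := by
    refine (Submodule.finrank_add_le_finrank_add_finrank _ _).trans ?_
    rw [← Matrix.rank_eq_finrank_span_row]
    have : finrank ℝ (Submodule.span ℝ ({1} : Set (V → ℝ))) ≤ 1 := by
      have := finrank_span_le_card (R := ℝ) ({1} : Set (V → ℝ))
      simpa using this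
    omega
  have key : ∀ m : ℕ, ∀ U : Set V, U.ncard ≤ m →
      Col G U (finrank ℝ ((W ^ k).map (cut U)) * M) := by
    intro m
    induction m with
    | zero =>
      intro U hU
      have : U = ∅ := by
        rw [← Set.ncard_eq_zero (Set.toFinite U)]; omega
      subst this
      exact ⟨fun _ => 0, by simp, by simp⟩
    | succ m ih =>
      intro U hU
      rcases U.eq_empty_or_nonempty with rfl | hne
      · exact ⟨fun _ => 0, by simp, by simp⟩
      obtain ⟨x, hx, S, hS, hcol⟩ := h U hne
      set Z : Set V := {y | y ∈ U ∧ ∀ u ∈ S, (G.Adj u y ↔ G.Adj u x)} with hZ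
      have hxZ : x ∈ Z := ⟨hx, fun _ _ => Iff.rfl⟩
      have hZU : Z ⊆ U := fun y hy => hy.1
      have hlt : (U \ Z).ncard < U.ncard := by
        apply Set.ncard_lt_ncard _ (Set.toFinite U)
        refine ⟨Set.sdiff_subset, fun hsub => ?_⟩
        exact (hsub hx).2 hxZ
      have hcol' := ih (U \ Z) (by omega)
      -- the indicator of the cell
      set b : V → ℝ := ∏ u ∈ S, (if G.Adj u x then (G.adjMatrix ℝ).row u else 1 - (G.adjMatrix ℝ).row u)
        with hb
      have hbW : b ∈ W ^ k := by
        apply pow_le_pow W h1W hS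
        apply prod_mem_pow
        intro u _
        split_ifs
        · exact hrowW u
        · exact W.sub_mem h1W (hrowW u)
      have hbx : b x = 1 := by
        rw [hb, Finset.prod_apply]
        apply Finset.prod_eq_one
        intro u _
        by_cases hu : G.Adj u x
        · simp [hu]
        · simp [hu]
      have hbU : ∀ y ∈ U, y ∉ Z → b y = 0 := by
        intro y hy hyZ
        have : ∃ u ∈ S, ¬ (G.Adj u y ↔ G.Adj u x) := by
          by_contra hcon
          push Not at hcon
          exact hyZ ⟨hy, hcon⟩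
        obtain ⟨u, huS, hu⟩ := this
        rw [hb, Finset.prod_apply]
        apply Finset.prod_eq_zero huS
        by_cases h1 : G.Adj u x
        · have h2 : ¬ G.Adj u y := fun h2 => hu ⟨fun _ => h1, fun _ => h2⟩
          simp [h1, h2]
        · have h2 : G.Adj u y := by
            by_contra h2
            exact hu ⟨fun h => absurd h h2, fun h => absurd h h1⟩
          simp [h1, h2]
      have hdim : finrank ℝ ((W ^ k).map (cut (U \ Z))) + 1 ≤ finrank ℝ ((W ^ k).map (cut U)) := by
        have hcomp : (W ^ k).map (cut (U \ Z)) = ((W ^ k).map (cut U)).map (cut (U \ Z)) := by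
          rw [← Submodule.map_comp]
          congr 1
          ext g y
          simp only [LinearMap.comp_apply]
          by_cases hy : y ∈ U \ Z
          · rw [cut_apply_mem _ _ _ hy, cut_apply_mem _ _ _ hy, cut_apply_mem _ _ _ hy.1]
          · rw [cut_apply_notMem _ _ _ hy, cut_apply_notMem _ _ _ hy]
        rw [hcomp]
        apply finrank_map_lt (cut (U \ Z)) ((W ^ k).map (cut U)) (cut U b)
          (Submodule.mem_map_of_mem hbW)
        · intro h0
          have := congrFun h0 x
          rw [cut_apply_mem _ _ _ hx, hbx] at this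
          exact one_ne_zero this
        · funext y
          by_cases hy : y ∈ U \ Z
          · rw [cut_apply_mem _ _ _ hy, cut_apply_mem _ _ _ hy.1, hbU y hy.1 hy.2]; rfl
          · rw [cut_apply_notMem _ _ _ hy]; rfl
      have hunion := col_union G (U \ Z) Z _ _ hcol' (col_of_colorable G Z M hcol)
      rw [Set.sdiff_union_of_subset hZU] at hunion
      obtain ⟨c, hc1, hc2⟩ := hunion
      refine ⟨c, fun y hy => lt_of_lt_of_le (hc1 y hy) ?_, hc2⟩
      calc finrank ℝ ((W ^ k).map (cut (U \ Z))) * M + M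
          = (finrank ℝ ((W ^ k).map (cut (U \ Z))) + 1) * M := by ring
        _ ≤ finrank ℝ ((W ^ k).map (cut U)) * M := Nat.mul_le_mul_right _ hdim
  have hfinal := key _ Set.univ le_rfl
  have hle : finrank ℝ ((W ^ k).map (cut (Set.univ : Set V))) * M ≤ (r + k).choose k * M := by
    apply Nat.mul_le_mul_right
    exact (Submodule.finrank_map_le _ _).trans (finrank_pow_le' W r k hWr)
  exact (colorable_of_col G _ hfinal).mono hle

/-- If every nonempty set `U` of vertices contains a vertex `x` and there are at most `k` vertices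
`S` of `G` such that the vertices of `U` with the same neighbours in `S` as `x` induce an
`M`-colourable graph, then `χ(G) ≤ M * (rank G + k).choose k`. -/
theorem result (n k M : ℕ) (G : SimpleGraph (Fin n)) [DecidableRel G.Adj]
    (h : ∀ U : Set (Fin n), U.Nonempty → ∃ x ∈ U, ∃ S : Finset (Fin n), S.card ≤ k ∧
      (G.induce {y | y ∈ U ∧ ∀ u ∈ S, (G.Adj u y ↔ G.Adj u x)}).Colorable M) :
    G.chromaticNumber ≤ ((((G.adjMatrix ℝ).rank + k).choose k * M : ℕ) : ℕ∞) :=
  (main G k M h).chromaticNumber_le

end Pool.Agent.Helper25.Old.LocalCells
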