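import Mathlib
import Pool.Agent.Helper25.Meet.Final
set_option autoImplicit false

namespace Pool.Agent.Results.MP_3bd889_lc.MeetFunctions

open Pool.Agent.Helper25.Meet

/-- Q1 (the log-rank conjecture in graph form) with exponent `7` for the graphs of all meet
functions on finite semilattices, in particular for all functions `f (x ∧ y)`. -/
theorem result : ∃ C : ℝ, 0 < C ∧ ∀ (L : Type) [Fintype L] [SemilatticeInf L] (f : L → Bool)
    [DecidableRel (meetGraph f).Adj], 1 < ((meetGraph f).adjMatrix ℝ).rank →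
    Real.log ((meetGraph f).chromaticNumber.toNat : ℝ) ≤
      C * Real.log (((meetGraph f).adjMatrix ℝ).rank : ℝ) ^ 7 := by
  refine ⟨92168 * 3 ^ 7, by norm_num, ?_⟩
  intro L _ _ f _ hr
  have hcol := colouring f hr
  set ρ := ((meetGraph f).adjMatrix ℝ).rank with hρ
  have hχ : (meetGraph f).chromaticNumber.toNat ≤ 2 ^ (92168 * (Nat.log 2 ρ + 1) ^ 7) := by
    have h1 := hcol.chromaticNumber_le
    exact ENat.toNat_le_of_le_natCast h1
  have hρ2 : (2 : ℝ) ≤ ρ := by exact_mod_cast hr
  have hρpos : (0 : ℝ) < ρ := by linarith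
  have hlog2 : (0.69 : ℝ) < Real.log 2 := by
    have := Real.log_two_gt_d9; linarith
  have hlog2' : Real.log 2 < 1 := by
    have := Real.log_two_lt_d9; linarith
  have hlogρ : Real.log 2 ≤ Real.log ρ := Real.log_le_log (by norm_num) hρ2
  have hl : ((Nat.log 2 ρ + 1 : ℕ) : ℝ) ≤ 3 * Real.log ρ := by
    have h1 : (2 : ℝ) ^ (Nat.log 2 ρ) ≤ ρ := by
      have := Nat.pow_log_le_self 2 (show ρ ≠ 0 by omega)
      exact_mod_cast this
    have h2 : (Nat.log 2 ρ : ℝ) * Real.log 2 ≤ Real.log ρ := by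
      rw [← Real.log_pow]
      exact Real.log_le_log (by positivity) h1
    have h3 : ((Nat.log 2 ρ + 1 : ℕ) : ℝ) * Real.log 2 ≤ 2 * Real.log ρ := by
      push_cast
      linarith
    have h4 : (0 : ℝ) ≤ ((Nat.log 2 ρ + 1 : ℕ) : ℝ) := Nat.cast_nonneg _
    have h5 := mul_le_mul_of_nonneg_left hlog2.le h4
    linarith
  by_cases h0 : (meetGraph f).chromaticNumber.toNat = 0
  · rw [h0, Nat.cast_zero, Real.log_zero]
    have : 0 ≤ Real.log ρ := by linarith
    positivity
  · have hpos : (0 : ℝ) < ((meetGraph f).chromaticNumber.toNat : ℝ) := by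
      exact_mod_cast Nat.pos_of_ne_zero h0
    calc Real.log ((meetGraph f).chromaticNumber.toNat : ℝ)
        ≤ Real.log ((2 : ℝ) ^ (92168 * (Nat.log 2 ρ + 1) ^ 7)) := by
          apply Real.log_le_log hpos
          exact_mod_cast hχ
      _ = (92168 * ((Nat.log 2 ρ + 1 : ℕ) : ℝ) ^ 7) * Real.log 2 := by
          rw [Real.log_pow]; push_cast; ring
      _ ≤ (92168 * (3 * Real.log ρ) ^ 7) * 1 := by
          apply mul_le_mul _ hlog2'.le (by linarith) (by
            have : 0 ≤ Real.log ρ := by linarith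
            positivity)
          apply mul_le_mul_of_nonneg_left _ (by norm_num)
          exact pow_le_pow_left₀ (Nat.cast_nonneg _) hl 7
      _ = 92168 * 3 ^ 7 * Real.log ρ ^ 7 := by ring

end Pool.Agent.Results.MP_3bd889_lc.MeetFunctions
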