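import Mathlib
import Pool.Agent.Helper25.ProdFinal
set_option autoImplicit false

namespace Pool.Agent.Helper25.Old.ProductAutomorphisms

open Pool.Agent.Helper25

/-- Log-rank type bound for graphs with a group of automorphisms which is a homomorphic image of
a direct product of a nilpotent group that is a product of `t` cyclic subgroups and of
alternating or other perfect groups. -/
theorem result : ∃ C : ℝ, 0 < C ∧ ∀ (n t : ℕ) (G : SimpleGraph (Fin n)) [DecidableRel G.Adj]
    (N : Type) [Group N] [Finite N] [Group.IsNilpotent N] (σ : Fin t → N)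
    (ι : Type) [Fintype ι] (T : ι → Type) [∀ i, Group (T i)] [∀ i, Finite (T i)]
    (L : ℝ) (Φ : N × (∀ i, T i) →* (G ≃g G)),
    (∀ g : N, ∃ a : Fin t → ℤ, g = (List.ofFn fun i => σ i ^ a i).prod) →
    0 ≤ L →
    (∀ i, (∃ m, 5 ≤ m ∧ Nonempty (T i ≃* alternatingGroup (Fin m))) ∨
      (commutator (T i) = ⊤ ∧ (Real.log (Nat.card (T i)) ≤ L ∨
        ∀ d ≤ (G.adjMatrix ℝ).rank, ∀ ρ : T i →* GL (Fin d) ℂ, ρ = 1))) →
    1 < (G.adjMatrix ℝ).rank →
    Real.log (G.chromaticNumber.toNat : ℝ) ≤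
      Real.log (Nat.card (MulAction.orbitRel.Quotient Φ.range (Fin n))) +
        C * ((t + 1) * Real.log ((G.adjMatrix ℝ).rank : ℝ) + L) *
          (Real.log ((G.adjMatrix ℝ).rank : ℝ)) ^ 3 := by
  refine ⟨70000, by norm_num, ?_⟩
  intro n t G _ N _ _ _ σ ι _ T _ _ L Φ hσ hL hT hr
  set r := (G.adjMatrix ℝ).rank with hrdef
  have h2r : 2 ≤ r := hr
  have hrR : (2 : ℝ) ≤ r := by exact_mod_cast h2r
  set q : ℕ := (2 * r + 2) ^ (t + 1) * ⌈Real.exp L⌉₊ with hq
  have hceil1 : 1 ≤ ⌈Real.exp L⌉₊ := Nat.one_le_iff_ne_zero.2 (by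
    rw [← Nat.pos_iff_ne_zero, Nat.ceil_pos]; exact Real.exp_pos L)
  have hpow1 : 1 ≤ (2 * r + 2) ^ t := Nat.one_le_pow _ _ (by omega)
  have hq2 : 2 * r + 2 ≤ q := by
    calc 2 * r + 2 = 1 * (2 * r + 2) * 1 := by ring
      _ ≤ (2 * r + 2) ^ t * (2 * r + 2) * ⌈Real.exp L⌉₊ :=
        Nat.mul_le_mul (Nat.mul_le_mul_right _ hpow1) hceil1
      _ = q := by rw [hq, pow_succ]
  have hq1 : (2 * r) ^ t ≤ q := by
    calc (2 * r) ^ t ≤ (2 * r + 2) ^ t := Nat.pow_le_pow_left (by omega) t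
      _ = (2 * r + 2) ^ t * 1 * 1 := by ring
      _ ≤ (2 * r + 2) ^ t * (2 * r + 2) * ⌈Real.exp L⌉₊ :=
        Nat.mul_le_mul (Nat.mul_le_mul_left _ (by omega)) hceil1
      _ = q := by rw [hq, pow_succ]
  have hqL : ⌈Real.exp L⌉₊ ≤ q := by
    calc ⌈Real.exp L⌉₊ = 1 * ⌈Real.exp L⌉₊ := (one_mul _).symm
      _ ≤ _ := Nat.mul_le_mul_right _ (Nat.one_le_pow _ _ (by omega))
  have hT' : ∀ i, AltOrQR (T i) r q := by
    intro i
    rcases hT i with h | ⟨h1, h2⟩
    · exact Or.inl h
    · right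
      refine ⟨h1, ?_⟩
      rcases h2 with h | h
      · left
        have hpos : (0 : ℝ) < Nat.card (T i) := by exact_mod_cast Nat.card_pos
        have h3 : (Nat.card (T i) : ℝ) ≤ Real.exp L := (Real.log_le_iff_le_exp hpos).1 h
        have h4 : (Nat.card (T i) : ℝ) ≤ (⌈Real.exp L⌉₊ : ℝ) := h3.trans (Nat.le_ceil _)
        exact (by exact_mod_cast h4 : Nat.card (T i) ≤ ⌈Real.exp L⌉₊).trans hqL
      · right; exact h
  have hcol := colorable_main G N σ hσ ι T (by omega : 0 < r) (le_of_eq hrdef.symm) hT' hq1 hq2 Φ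
  set m := Nat.card (MulAction.orbitRel.Quotient Φ.range (Fin n)) with hm
  set D := Nat.log 2 (2 * r) + Nat.log 2 r with hD
  have hlogr : 0 < Real.log r := Real.log_pos (by linarith)
  have hlog2 : 0.6931471803 < Real.log 2 := Real.log_two_gt_d9
  have hlog2r : Real.log 2 ≤ Real.log r := Real.log_le_log (by norm_num) hrR
  -- bound on `D`
  have hDle : (D : ℝ) ≤ 4.33 * Real.log r := by
    have h1 : 2 ^ (Nat.log 2 (2 * r)) ≤ 2 * r := Nat.pow_log_le_self 2 (by omega)
    have h2 : 2 ^ (Nat.log 2 r) ≤ r := Nat.pow_log_le_self 2 (by omega)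
    have h3 : 2 ^ D ≤ (2 * r) * r := by rw [hD, pow_add]; exact Nat.mul_le_mul h1 h2
    have h4 : ((2 : ℝ)) ^ D ≤ 2 * r * r := by exact_mod_cast h3
    have h5 := Real.log_le_log (by positivity) h4
    rw [Real.log_pow, Real.log_mul (by positivity) (by positivity),
      Real.log_mul (by norm_num) (by positivity)] at h5
    have h6 : (D : ℝ) * Real.log 2 ≤ 3 * Real.log r := by linarith
    have h7 : (D : ℝ) * 0.6931471803 ≤ 3 * Real.log r := by
      refine le_trans ?_ h6
      exact mul_le_mul_of_nonneg_left hlog2.le (Nat.cast_nonneg D)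
    have h8 : (D : ℝ) ≤ 3 / 0.6931471803 * Real.log r := by
      rw [div_mul_eq_mul_div, le_div_iff₀ (by norm_num)]; exact h7
    refine h8.trans ?_
    apply mul_le_mul_of_nonneg_right _ hlogr.le
    norm_num
  have hD3 : (D : ℝ) ^ 3 ≤ 81.2 * (Real.log r) ^ 3 := by
    have h1 : (D : ℝ) ^ 3 ≤ (4.33 * Real.log r) ^ 3 := pow_le_pow_left₀ (Nat.cast_nonneg D) hDle 3
    have h2 : (4.33 * Real.log r) ^ 3 = 4.33 ^ 3 * (Real.log r) ^ 3 := by ring
    rw [h2] at h1
    refine h1.trans ?_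
    apply mul_le_mul_of_nonneg_right _ (by positivity)
    norm_num
  -- bound on `log q`
  have hq0 : 0 < q := by omega
  have hlogq : Real.log q ≤ 4 * ((t + 1) * Real.log r + L) := by
    have h1 : (q : ℝ) = (2 * r + 2) ^ (t + 1) * (⌈Real.exp L⌉₊ : ℝ) := by rw [hq]; push_cast; ring
    have hc0 : (0 : ℝ) < (⌈Real.exp L⌉₊ : ℝ) := by exact_mod_cast hceil1
    rw [h1, Real.log_mul (by positivity) hc0.ne', Real.log_pow]
    have h2 : Real.log (2 * r + 2) ≤ 3 * Real.log r := by
      have : (2 * (r : ℝ) + 2) ≤ r ^ 3 := by nlinarith [sq_nonneg ((r : ℝ) - 2)]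
      have h3 := Real.log_le_log (by positivity) this
      rw [Real.log_pow] at h3
      push_cast at h3
      exact h3
    have h3 : Real.log (⌈Real.exp L⌉₊ : ℝ) ≤ L + Real.log r := by
      have h4 : (⌈Real.exp L⌉₊ : ℝ) ≤ Real.exp L * 2 := by
        have h5 := (Nat.ceil_lt_add_one (Real.exp_pos L).le).le
        have h6 : (1 : ℝ) ≤ Real.exp L := Real.one_le_exp hL
        linarith
      have h5 := Real.log_le_log hc0 h4
      rw [Real.log_mul (Real.exp_pos L).ne' (by norm_num), Real.log_exp] at h5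
      linarith
    have ht : (0 : ℝ) ≤ t := Nat.cast_nonneg t
    push_cast
    nlinarith [mul_le_mul_of_nonneg_left h2 (by linarith : (0 : ℝ) ≤ t + 1),
      mul_nonneg ht hlogr.le]
  have hfin : Finite (G ≃g G) := 
    Finite.of_injective (fun g : G ≃g G => (g : Fin n → Fin n)) DFunLike.coe_injective
  have hmpos : 0 < m := by
    have hn : 0 < n := by
      rcases Nat.eq_zero_or_pos n with h | h
      · exfalso
        subst h
        have : (G.adjMatrix ℝ).rank ≤ Fintype.card (Fin 0) := Matrix.rank_le_card_width _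
        simp at this
        omega
      · exact h
    rw [hm]
    have : Nonempty (MulAction.orbitRel.Quotient Φ.range (Fin n)) := ⟨Quotient.mk _ ⟨0, hn⟩⟩
    exact Nat.card_pos
  have hchi : G.chromaticNumber.toNat ≤ m * q ^ (200 * D ^ 3) :=
    ENat.toNat_le_of_le_natCast hcol.chromaticNumber_le
  have hlogm : 0 ≤ Real.log (m : ℝ) := Real.log_natCast_nonneg m
  have ht : (0 : ℝ) ≤ t := Nat.cast_nonneg t
  have hX : 0 ≤ (t + 1) * Real.log r + L := by positivity
  rcases Nat.eq_zero_or_pos G.chromaticNumber.toNat with h0 | hpos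
  · rw [h0]
    simp only [Nat.cast_zero, Real.log_zero]
    positivity
  · have h1 : Real.log (G.chromaticNumber.toNat : ℝ) ≤ Real.log ((m * q ^ (200 * D ^ 3) : ℕ) : ℝ) :=
      Real.log_le_log (by exact_mod_cast hpos) (by exact_mod_cast hchi)
    refine h1.trans ?_
    push_cast
    have hq0' : (0 : ℝ) < q := by exact_mod_cast hq0
    rw [Real.log_mul (by exact_mod_cast hmpos.ne') (by positivity), Real.log_pow]
    push_cast
    have : 200 * (D : ℝ) ^ 3 * Real.log q ≤
        70000 * ((t + 1) * Real.log r + L) * (Real.log r) ^ 3 := by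
      calc 200 * (D : ℝ) ^ 3 * Real.log q
          ≤ 200 * (81.2 * (Real.log r) ^ 3) * (4 * ((t + 1) * Real.log r + L)) := by
            apply mul_le_mul _ hlogq (Real.log_natCast_nonneg q) (by positivity)
            exact mul_le_mul_of_nonneg_left hD3 (by norm_num)
        _ = 64960 * ((t + 1) * Real.log r + L) * (Real.log r) ^ 3 := by ring
        _ ≤ _ := by
          apply mul_le_mul_of_nonneg_right _ (by positivity)
          apply mul_le_mul_of_nonneg_right _ hX
          norm_num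
    linarith

end Pool.Agent.Helper25.Old.ProductAutomorphisms
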