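import Pool.Agent.Helper25.PH.Final
import Pool.Agent.Helper25.PH.Colour

/-!
# Promise graph homomorphism: topological chromatic numbers at distance at most one

`PCSP(G, H)` is NP-hard if a `k`-fold iterated generalised Mycielskian of an odd cycle maps to
`G` and no `(k + 2)`-fold iterated generalised Mycielskian of an odd cycle maps to `H` (for
instance if `H` is `(k + 4)`-colourable).
-/

set_option autoImplicit false

namespace Pool.Agent.Results.MP_67bc2f_lc.TopologicalChromatic

open Pool.Agent.Helper25.PH

/-- **Hardness of promise graph homomorphism.** Let `G`, `H` be finite graphs, `k = rs.length`,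
such that the iterated generalised Mycielskian `M_{r₁}(… M_{r_k}(C_m))` of an odd cycle maps to
`G`, and `H` is `(k + 4)`-colourable or, more generally, no `(k + 2)`-fold iterated generalised
Mycielskian of an odd cycle maps to `H`. Then `PCSP(G, H)` is NP-hard. -/
theorem result {V W : Type} [Finite V] [Finite W] (G : SimpleGraph V) (H : SimpleGraph W)
    (rs : List ℕ) (m : ℕ) (hm : Odd m) (hG : HomTo (gmyc rs (cyc m)).E G.Adj)
    (hH : H.Colorable (rs.length + 4) ∨
      ∀ (qs : List ℕ) (l : ℕ), qs.length = rs.length + 2 → Odd l → 3 ≤ l →
        ¬ HomTo (gmyc qs (cyc l)).E H.Adj) :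
    NPHardPCSP G H := by
  refine hard G H rs m hm hG ?_
  rcases hH with hH | hH
  · intro qs l hqs hl _ h
    obtain ⟨c⟩ := hH
    have e : rs.length + 4 = qs.length + 2 := by omega
    refine not_colour qs l hl (h.trans ⟨fun x => Fin.cast e (c x), ?_⟩)
    intro u v huv h'
    exact c.valid huv (by simpa [Fin.ext_iff] using h')
  · exact hH

end Pool.Agent.Results.MP_67bc2f_lc.TopologicalChromatic
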